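import Mathlib

set_option autoImplicit false

namespace Pool.Agent.H.MP_2b3d4e_al

open Equiv

def IsCT (σ : Perm ℤ) : Prop := ∃ r₁ m₁ r₂ m₂ : ℤ,
  0 ≤ r₁ ∧ r₁ < m₁ ∧ 0 ≤ r₂ ∧ r₂ < m₂ ∧
  (∀ n : ℤ, ¬ (Int.ModEq m₁ n r₁ ∧ Int.ModEq m₂ n r₂)) ∧
  (∀ k : ℤ, σ (r₁ + m₁ * k) = r₂ + m₂ * k ∧ σ (r₂ + m₂ * k) = r₁ + m₁ * k) ∧
  ∀ n : ℤ, ¬ Int.ModEq m₁ n r₁ → ¬ Int.ModEq m₂ n r₂ → σ n = n

def H : Subgroup (Perm ℤ) := Subgroup.closure {σ | IsCT σ}

def Good (a : ℤ → ℤ) : Prop := ∃ r m : ℤ, 0 ≤ r ∧ r < m ∧ ∀ k, a k = r + m * k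

def PG (a : ℤ → ℤ) (m : ℤ) : Prop := ∀ j, 0 ≤ j → j < m → Good (fun k => a (j + m * k))

def PGood (a : ℤ → ℤ) : Prop := ∃ m, 0 < m ∧ PG a m

def IsSw (a b : ℤ → ℤ) (π : Perm ℤ) : Prop :=
  (∀ k, π (a k) = b k ∧ π (b k) = a k) ∧ ∀ n, (∀ k, n ≠ a k) → (∀ k, n ≠ b k) → π n = n

lemma modEq_iff (m n r : ℤ) : Int.ModEq m n r ↔ ∃ k, n = r + m * k := by
  constructor
  · intro h
    obtain ⟨k, hk⟩ := h.symm.dvd
    exact ⟨k, by linarith⟩
  · rintro ⟨k, rfl⟩
    exact (Int.modEq_iff_dvd.2 ⟨k, by ring⟩).symm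

lemma good_cls {j m : ℤ} (h0 : 0 ≤ j) (h1 : j < m) : Good (fun k => j + m * k) :=
  ⟨j, m, h0, h1, fun _ => rfl⟩

lemma Good.comp {a b : ℤ → ℤ} (ha : Good a) (hb : Good b) : Good (fun k => a (b k)) := by
  obtain ⟨r, m, h0, h1, h⟩ := ha
  obtain ⟨s, n, g0, g1, g⟩ := hb
  refine ⟨r + m * s, m * n, by nlinarith, by nlinarith, fun k => ?_⟩
  simp only [h, g]; ring

lemma Good.inj {a : ℤ → ℤ} (ha : Good a) : Function.Injective a := by
  obtain ⟨r, m, h0, h1, h⟩ := ha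
  intro x y hxy
  rw [h, h] at hxy
  have hm : m ≠ 0 := by omega
  exact mul_left_cancel₀ hm (by linarith)

lemma Good.nonneg {a : ℤ → ℤ} (ha : Good a) (k : ℤ) : 0 ≤ a k ↔ 0 ≤ k := by
  obtain ⟨r, m, h0, h1, h⟩ := ha
  rw [h]
  constructor
  · intro hk
    by_contra hc
    have : k ≤ -1 := by omega
    nlinarith
  · intro hk
    nlinarith

lemma decomp (n : ℤ) {m : ℤ} (hm : 0 < m) : ∃ j q, 0 ≤ j ∧ j < m ∧ n = j + m * q :=
  ⟨n % m, n / m, Int.emod_nonneg _ hm.ne', Int.emod_lt_of_pos _ hm,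
    (Int.emod_add_mul_ediv n m).symm⟩

lemma decomp' {n m c : ℤ} (hm : 0 < m) (h0 : 0 ≤ n) (h1 : n < m * c) :
    ∃ j q, 0 ≤ j ∧ j < m ∧ 0 ≤ q ∧ q < c ∧ n = j + m * q := by
  obtain ⟨j, q, a, b, c'⟩ := decomp n hm
  refine ⟨j, q, a, b, ?_, ?_, c'⟩
  · by_contra hc
    have : q ≤ -1 := by omega
    nlinarith
  · by_contra hc
    have : c ≤ q := by omega
    nlinarith

lemma decomp_unique {m j j' q q' : ℤ} (h0 : 0 ≤ j) (h1 : j < m) (g0 : 0 ≤ j') (g1 : j' < m)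
    (h : j + m * q = j' + m * q') : j = j' ∧ q = q' := by
  have : q = q' := by
    rcases lt_trichotomy q q' with c | c | c
    · have : q + 1 ≤ q' := c
      nlinarith
    · exact c
    · have : q' + 1 ≤ q := c
      nlinarith
  subst this
  exact ⟨by linarith, rfl⟩

lemma PG.mul {a : ℤ → ℤ} {m m' : ℤ} (h : PG a m) (hm : 0 < m) : PG a (m * m') := by
  intro j h0 h1
  obtain ⟨j0, j1, a0, a1, b0, b1, rfl⟩ := decomp' hm h0 h1
  have := (h j0 a0 a1).comp (good_cls b0 b1)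
  convert this using 3
  ring

lemma PG.comp_good {a b : ℤ → ℤ} {m : ℤ} (h : PG a m) (hm : 0 < m) (hb : Good b) :
    PG (fun k => a (b k)) m := by
  obtain ⟨r, c, h0, h1, hb⟩ := hb
  intro j a0 a1
  obtain ⟨y0, y1, c0, c1, d0, d1, hy⟩ :=
    decomp' (n := r + c * j) (c := c) hm (by nlinarith) (by nlinarith)
  have := (h y0 c0 c1).comp (good_cls d0 d1)
  convert this using 3
  rw [hb]
  linear_combination hy

lemma Good.pgood {a : ℤ → ℤ} (ha : Good a) : PGood a :=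
  ⟨1, one_pos, fun _ h0 h1 => ha.comp (good_cls h0 h1)⟩

lemma PGood.comp {a b : ℤ → ℤ} (ha : PGood a) (hb : PGood b) : PGood (fun k => a (b k)) := by
  obtain ⟨m, hm, ha⟩ := ha
  obtain ⟨m', hm', hb⟩ := hb
  refine ⟨m' * m, by positivity, fun j h0 h1 => ?_⟩
  obtain ⟨j0, j1, a0, a1, b0, b1, rfl⟩ := decomp' hm' h0 h1
  have := (ha.comp_good hm (hb j0 a0 a1)) j1 b0 b1
  have e : ∀ k, j0 + m' * j1 + m' * m * k = j0 + m' * (j1 + m * k) := fun k => by ring
  simpa only [e] using this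

lemma PGood.nonneg {a : ℤ → ℤ} (ha : PGood a) (n : ℤ) : 0 ≤ a n ↔ 0 ≤ n := by
  obtain ⟨m, hm, ha⟩ := ha
  obtain ⟨j, q, h0, h1, rfl⟩ := decomp n hm
  rw [(ha j h0 h1).nonneg q, (good_cls h0 h1).nonneg q]

lemma sw_good {a b : ℤ → ℤ} (ha : Good a) (hb : Good b) (hd : ∀ k l, a k ≠ b l) {π : Perm ℤ}
    (h : IsSw a b π) : π ∈ H := by
  obtain ⟨r, m, h0, h1, ha⟩ := ha
  obtain ⟨s, n, g0, g1, hb⟩ := hb
  refine Subgroup.subset_closure ⟨r, m, s, n, h0, h1, g0, g1, ?_, ?_, ?_⟩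
  · rintro x ⟨hx, hx'⟩
    obtain ⟨k, hk⟩ := (modEq_iff _ _ _).1 hx
    obtain ⟨l, hl⟩ := (modEq_iff _ _ _).1 hx'
    exact hd k l (by rw [ha, hb, ← hk, ← hl])
  · intro k
    rw [← ha, ← hb]
    exact h.1 k
  · intro x hx hx'
    refine h.2 x (fun k hk => hx ?_) (fun k hk => hx' ?_)
    · exact (modEq_iff _ _ _).2 ⟨k, by rw [hk, ha]⟩
    · exact (modEq_iff _ _ _).2 ⟨k, by rw [hk, hb]⟩

lemma IsCT.sw {σ : Perm ℤ} (h : IsCT σ) :
    ∃ a b, Good a ∧ Good b ∧ (∀ k l, a k ≠ b l) ∧ IsSw a b σ := by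
  obtain ⟨r, m, s, n, h0, h1, g0, g1, hd, hs, hf⟩ := h
  refine ⟨_, _, good_cls h0 h1, good_cls g0 g1, fun k l hkl => hd (r + m * k) ⟨?_, ?_⟩, hs,
    fun x hx hx' => hf x ?_ ?_⟩
  · exact (modEq_iff _ _ _).2 ⟨k, rfl⟩
  · exact (modEq_iff _ _ _).2 ⟨l, hkl⟩
  · intro hc
    obtain ⟨k, hk⟩ := (modEq_iff _ _ _).1 hc
    exact hx k hk
  · intro hc
    obtain ⟨k, hk⟩ := (modEq_iff _ _ _).1 hc
    exact hx' k hk

lemma exists_sw {a b : ℤ → ℤ} (ha : Function.Injective a) (hb : Function.Injective b)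
    (hd : ∀ k l, a k ≠ b l) : ∃ π, IsSw a b π := by
  classical
  let f : ℤ → ℤ := fun n =>
    if h : ∃ k, n = a k then b h.choose else if h : ∃ k, n = b k then a h.choose else n
  have f1 : ∀ k, f (a k) = b k := by
    intro k
    have h : ∃ l, a k = a l := ⟨k, rfl⟩
    simp only [f, dif_pos h]
    rw [← ha h.choose_spec]
  have f2 : ∀ k, f (b k) = a k := by
    intro k
    have h' : ¬ ∃ l, b k = a l := fun ⟨l, hl⟩ => hd l k hl.symm
    have h : ∃ l, b k = b l := ⟨k, rfl⟩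
    simp only [f, dif_neg h', dif_pos h]
    rw [← hb h.choose_spec]
  have f3 : ∀ n, (∀ k, n ≠ a k) → (∀ k, n ≠ b k) → f n = n := by
    intro n h1 h2
    have h' : ¬ ∃ l, n = a l := fun ⟨l, hl⟩ => h1 l hl
    have h'' : ¬ ∃ l, n = b l := fun ⟨l, hl⟩ => h2 l hl
    simp only [f, dif_neg h', dif_neg h'']
  have hinv : Function.Involutive f := by
    intro n
    by_cases h1 : ∃ k, n = a k
    · obtain ⟨k, rfl⟩ := h1
      rw [f1, f2]
    · by_cases h2 : ∃ k, n = b k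
      · obtain ⟨k, rfl⟩ := h2
        rw [f2, f1]
      · push Not at h1 h2
        rw [f3 n h1 h2, f3 n h1 h2]
  exact ⟨hinv.toPerm f, fun k => ⟨f1 k, f2 k⟩, f3⟩

lemma glue (S : ℕ → Set ℤ) (hS : ∀ i j n, n ∈ S i → n ∈ S j → i = j) (t : ℕ) :
    ∀ π : Perm ℤ, (∀ j < t, ∀ n, π n ∈ S j ↔ n ∈ S j) →
      (∀ n, (∀ j < t, n ∉ S j) → π n = n) →
      (∀ j < t, ∀ σ : Perm ℤ, (∀ n ∈ S j, σ n = π n) → (∀ n ∉ S j, σ n = n) → σ ∈ H) →
      π ∈ H := by
  classical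
  induction t with
  | zero =>
    intro π _ h _
    have : π = 1 := Equiv.ext fun n => h n (fun j hj => absurd hj (Nat.not_lt_zero j))
    rw [this]; exact H.one_mem
  | succ t ih =>
    intro π h1 h2 h3
    have ht := h1 t (Nat.lt_succ_self t)
    let ρ : Perm ℤ := Equiv.Perm.ofSubtype (π.subtypePerm (p := fun n => n ∈ S t) ht)
    have ρ1 : ∀ n ∈ S t, ρ n = π n := fun n hn =>
      Equiv.Perm.ofSubtype_subtypePerm_of_mem ht hn
    have ρ2 : ∀ n ∉ S t, ρ n = n := fun n hn =>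
      Equiv.Perm.ofSubtype_subtypePerm_of_not_mem ht hn
    have hρ : ρ ∈ H := h3 t (Nat.lt_succ_self t) ρ ρ1 ρ2
    have e1 : ∀ n ∈ S t, (ρ⁻¹ * π) n = n := by
      intro n hn
      rw [Perm.mul_apply, ← ρ1 n hn]
      simp
    have e2 : ∀ n ∉ S t, (ρ⁻¹ * π) n = π n := by
      intro n hn
      rw [Perm.mul_apply, Perm.inv_eq_iff_eq, ρ2 _ (fun h => hn ((ht n).1 h))]
    have key : ρ⁻¹ * π ∈ H := by
      refine ih _ ?_ ?_ ?_
      · intro j hj n
        by_cases hn : n ∈ S t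
        · rw [e1 n hn]
        · rw [e2 n hn]; exact h1 j (Nat.lt_succ_of_lt hj) n
      · intro n hn
        by_cases hn' : n ∈ S t
        · exact e1 n hn'
        · rw [e2 n hn']
          refine h2 n fun j hj => ?_
          rcases Nat.lt_succ_iff_lt_or_eq.1 hj with c | c
          · exact hn j c
          · rw [c]; exact hn'
      · intro j hj σ s1 s2
        refine h3 j (Nat.lt_succ_of_lt hj) σ (fun n hn => ?_) s2
        rw [s1 n hn, e2 n (fun hc => absurd (hS _ _ _ hn hc) hj.ne)]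
    have := H.mul_mem hρ key
    simpa using this

lemma sw_pgood {a b : ℤ → ℤ} (ha : PGood a) (hb : PGood b) (ia : Function.Injective a)
    (ib : Function.Injective b) (hd : ∀ k l, a k ≠ b l) {π : Perm ℤ}
    (h : IsSw a b π) : π ∈ H := by
  obtain ⟨m1, hm1, ha⟩ := ha
  obtain ⟨m2, hm2, hb⟩ := hb
  have ha' : PG a (m1 * m2) := ha.mul hm1
  have hb' : PG b (m1 * m2) := by rw [mul_comm]; exact hb.mul hm2
  have hm : 0 < m1 * m2 := by positivity
  generalize m1 * m2 = m at ha' hb' hm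
  let S : ℕ → Set ℤ := fun j =>
    {n | (j : ℤ) < m ∧ ∃ k, n = a (j + m * k) ∨ n = b (j + m * k)}
  have hu : ∀ i j : ℕ, ∀ k l : ℤ, (i : ℤ) < m → (j : ℤ) < m → (i : ℤ) + m * k = j + m * l →
      i = j := by
    intro i j k l hi hj e
    exact_mod_cast (decomp_unique (Int.natCast_nonneg i) hi (Int.natCast_nonneg j) hj e).1
  refine glue S ?_ m.toNat π ?_ ?_ ?_
  · rintro i j n ⟨hi, k, hk | hk⟩ ⟨hj, l, hl | hl⟩
    · exact hu i j k l hi hj (ia (hk.symm.trans hl))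
    · exact absurd (hk.symm.trans hl) (hd _ _)
    · exact absurd (hl.symm.trans hk) (hd _ _)
    · exact hu i j k l hi hj (ib (hk.symm.trans hl))
  · intro j _ n
    constructor
    · rintro ⟨hj, k, hk | hk⟩
      · refine ⟨hj, k, Or.inr (π.injective ?_)⟩
        rw [hk, (h.1 _).2]
      · refine ⟨hj, k, Or.inl (π.injective ?_)⟩
        rw [hk, (h.1 _).1]
    · rintro ⟨hj, k, hk | hk⟩
      · exact ⟨hj, k, Or.inr (by rw [hk, (h.1 _).1])⟩
      · exact ⟨hj, k, Or.inl (by rw [hk, (h.1 _).2])⟩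
  · intro n hn
    have aux : ∀ k : ℤ, n = a k ∨ n = b k → False := by
      intro k hk
      obtain ⟨j, q, h0, h1, rfl⟩ := decomp k hm
      lift j to ℕ using h0
      exact hn j (by omega) ⟨h1, q, hk⟩
    exact h.2 n (fun k hk => aux k (Or.inl hk)) (fun k hk => aux k (Or.inr hk))
  · intro j hj σ s1 s2
    have hj' : (j : ℤ) < m := by omega
    refine sw_good (ha' j (Int.natCast_nonneg j) hj') (hb' j (Int.natCast_nonneg j) hj')
      (fun k l => hd _ _) ⟨fun k => ⟨?_, ?_⟩, fun n n1 n2 => s2 n ?_⟩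
    · rw [s1 _ ⟨hj', k, Or.inl rfl⟩, (h.1 _).1]
    · rw [s1 _ ⟨hj', k, Or.inr rfl⟩, (h.1 _).2]
    · rintro ⟨_, k, hk | hk⟩
      · exact n1 k hk
      · exact n2 k hk


lemma conj_mem {g : Perm ℤ} (hg : PGood g) {h : Perm ℤ} (hh : h ∈ H) : g * h * g⁻¹ ∈ H := by
  have : H ≤ H.comap (MulAut.conj g).toMonoidHom := by
    refine (Subgroup.closure_le _).2 fun σ hσ => ?_
    obtain ⟨a, b, ha, hb, hd, hs⟩ := IsCT.sw hσ
    show g * σ * g⁻¹ ∈ H
    refine sw_pgood (a := fun k => g (a k)) (b := fun k => g (b k)) (hg.comp ha.pgood)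
      (hg.comp hb.pgood) (g.injective.comp ha.inj) (g.injective.comp hb.inj)
      (fun k l e => hd k l (g.injective e)) ⟨fun k => ⟨?_, ?_⟩, fun n n1 n2 => ?_⟩
    · simp [(hs.1 k).1]
    · simp [(hs.1 k).2]
    · rw [Perm.mul_apply, Perm.mul_apply, hs.2 (g⁻¹ n)]
      · simp
      · intro k hk
        exact n1 k (show n = g (a k) by rw [← hk]; simp)
      · intro k hk
        exact n2 k (show n = g (b k) by rw [← hk]; simp)
  exact this hh

noncomputable def io {e : ℤ → ℤ} (he : Good e) : Perm ℤ →* Perm ℤ :=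
  Equiv.Perm.viaEmbeddingHom ⟨e, he.inj⟩

lemma io_apply {e : ℤ → ℤ} (he : Good e) (g : Perm ℤ) (k : ℤ) : io he g (e k) = e (g k) :=
  Equiv.Perm.viaEmbedding_apply g ⟨e, he.inj⟩ k

lemma io_out {e : ℤ → ℤ} (he : Good e) (g : Perm ℤ) (n : ℤ) (hn : ∀ k, n ≠ e k) :
    io he g n = n :=
  Equiv.Perm.viaEmbedding_apply_of_notMem g ⟨e, he.inj⟩ n (fun ⟨k, hk⟩ => hn k hk.symm)

lemma io_mem {e : ℤ → ℤ} (he : Good e) {h : Perm ℤ} (hh : h ∈ H) : io he h ∈ H := by
  have : H ≤ H.comap (io he) := by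
    refine (Subgroup.closure_le _).2 fun σ hσ => ?_
    obtain ⟨a, b, ha, hb, hd, hs⟩ := IsCT.sw hσ
    show io he σ ∈ H
    refine sw_good (he.comp ha) (he.comp hb) (fun k l e => hd k l (he.inj e))
      ⟨fun k => ⟨?_, ?_⟩, fun n n1 n2 => ?_⟩
    · rw [io_apply, (hs.1 k).1]
    · rw [io_apply, (hs.1 k).2]
    · by_cases hn : ∃ k, n = e k
      · obtain ⟨k, rfl⟩ := hn
        rw [io_apply, hs.2 k (fun l hl => n1 l (by rw [hl])) (fun l hl => n2 l (by rw [hl]))]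
      · exact io_out he σ n (fun k hk => hn ⟨k, hk⟩)
  exact this hh

lemma io_io {e e' : ℤ → ℤ} (he : Good e) (he' : Good e') (g : Perm ℤ) :
    io he (io he' g) = io (he.comp he') g := by
  ext n
  by_cases hn : ∃ k, n = e (e' k)
  · obtain ⟨k, rfl⟩ := hn
    rw [io_apply, io_apply]
    exact (io_apply (he.comp he') g k).symm
  · rw [io_out (he.comp he') g n (fun k hk => hn ⟨k, hk⟩)]
    by_cases hn' : ∃ k, n = e k
    · obtain ⟨k, rfl⟩ := hn'
      rw [io_apply, io_out he' g k (fun l hl => hn ⟨l, by rw [hl]⟩)]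
    · exact io_out he _ n (fun k hk => hn' ⟨k, hk⟩)

lemma lemA {e e' : ℤ → ℤ} (he : Good e) (he' : Good e') (hd : ∀ k l, e k ≠ e' l) {g : Perm ℤ}
    (hg : PGood g) : io he' g * (io he g)⁻¹ ∈ H := by
  obtain ⟨t, ht⟩ := exists_sw he.inj he'.inj hd
  have tH : t ∈ H := sw_good he he' hd ht
  have hs : t * (io he' g * (io he g)⁻¹) ∈ H := by
    refine sw_pgood (a := fun k => e (g k)) (b := e') (he.pgood.comp hg) he'.pgood
      (he.inj.comp g.injective) he'.inj (fun k l => hd _ _)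
      ⟨fun k => ⟨?_, ?_⟩, fun n n1 n2 => ?_⟩
    · have : (io he g)⁻¹ (e (g k)) = e k := by rw [Perm.inv_eq_iff_eq, io_apply]
      rw [Perm.mul_apply, Perm.mul_apply, this, io_out he' g _ (hd k), (ht.1 k).1]
    · have : (io he g)⁻¹ (e' k) = e' k := by
        rw [Perm.inv_eq_iff_eq, io_out he g _ (fun l => (hd l k).symm)]
      rw [Perm.mul_apply, Perm.mul_apply, this, io_apply, (ht.1 _).2]
    · have n1' : ∀ k, n ≠ e k := fun k hk => n1 (g⁻¹ k) (by simpa using hk)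
      have : (io he g)⁻¹ n = n := by rw [Perm.inv_eq_iff_eq, io_out he g _ n1']
      rw [Perm.mul_apply, Perm.mul_apply, this, io_out he' g _ n2, ht.2 n n1' n2]
  have := H.mul_mem (H.inv_mem tH) hs
  simpa using this

lemma per_aux {M : ℤ} (hM : 0 < M) (t : ℕ) : ∀ π : Perm ℤ, (t : ℤ) ≤ M →
    (∀ y k, π (y + M * k) = π y + M * k) → (∀ y, 0 ≤ y → y < M → 0 ≤ π y ∧ π y < M) →
    (∀ y, (t : ℤ) ≤ y → y < M → π y = y) → π ∈ H := by
  induction t with
  | zero =>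
    intro π _ h1 _ h3
    have : π = 1 := by
      ext n
      obtain ⟨j, q, h0, h1', rfl⟩ := decomp n hM
      rw [h1, h3 j (by exact_mod_cast h0) h1']; rfl
    rw [this]; exact H.one_mem
  | succ t ih =>
    intro π ht h1 h2 h3
    push_cast at ht h3
    have t0 : (0 : ℤ) ≤ t := Int.natCast_nonneg t
    have t1 : (t : ℤ) < M := by omega
    by_cases hj : π t = t
    · refine ih π t1.le h1 h2 fun y y0 y1 => ?_
      rcases y0.eq_or_lt with c | c
      · rw [← c]; exact hj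
      · exact h3 y c y1
    · obtain ⟨j0, j1⟩ := h2 t t0 t1
      have ga := good_cls t0 t1
      have gb := good_cls j0 j1
      have hd : ∀ k l : ℤ, (t : ℤ) + M * k ≠ π t + M * l := fun k l e =>
        hj (decomp_unique t0 t1 j0 j1 e).1.symm
      obtain ⟨σ, hσ⟩ := exists_sw ga.inj gb.inj hd
      have σH : σ ∈ H := sw_good ga gb hd hσ
      have s0 : ∀ y, 0 ≤ y → y < M → y ≠ t → y ≠ π t → ∀ k, σ (y + M * k) = y + M * k := by
        intro y y0 y1 a b k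
        exact hσ.2 _ (fun l e => a (decomp_unique y0 y1 t0 t1 e).1)
          (fun l e => b (decomp_unique y0 y1 j0 j1 e).1)
      have s1 : σ t = π t := by simpa using (hσ.1 0).1
      have s2 : σ (π t) = t := by simpa using (hσ.1 0).2
      have s3 : ∀ y k, σ (y + M * k) = σ y + M * k := by
        intro y k
        obtain ⟨j, q, h0, h1', rfl⟩ := decomp y hM
        have e : ∀ z : ℤ, z + M * q + M * k = z + M * (q + k) := fun z => by ring
        by_cases a : j = t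
        · rw [a, e, (hσ.1 _).1, (hσ.1 _).1, e]
        · by_cases b : j = π t
          · rw [b, e, (hσ.1 _).2, (hσ.1 _).2, e]
          · rw [e, s0 j h0 h1' a b, s0 j h0 h1' a b, e]
      have key : σ * π ∈ H := by
        refine ih _ t1.le (fun y k => ?_) (fun y y0 y1 => ?_) (fun y y0 y1 => ?_)
        · rw [Perm.mul_apply, Perm.mul_apply, h1, s3]
        · rw [Perm.mul_apply]
          obtain ⟨z0, z1⟩ := h2 y y0 y1
          by_cases a : π y = t
          · rw [a, s1]; exact ⟨j0, j1⟩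
          · by_cases b : π y = π t
            · rw [b, s2]; exact ⟨t0, t1⟩
            · have := s0 _ z0 z1 a b 0
              simp only [mul_zero, add_zero] at this
              rw [this]; exact ⟨z0, z1⟩
        · rw [Perm.mul_apply]
          rcases y0.eq_or_lt with c | c
          · rw [← c]; exact s2
          · have hy := h3 y c y1
            rw [hy]
            have := s0 y (by omega) y1 c.ne' (fun e => c.ne' (π.injective (hy.trans e))) 0
            simpa using this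
      have := H.mul_mem (H.inv_mem σH) key
      simpa using this

lemma per_mem {M : ℤ} (hM : 0 < M) (π : Perm ℤ) (h1 : ∀ y k, π (y + M * k) = π y + M * k)
    (h2 : ∀ y, 0 ≤ π y ↔ 0 ≤ y) : π ∈ H := by
  refine per_aux hM M.toNat π (by omega) h1 (fun y y0 y1 => ⟨(h2 y).2 y0, ?_⟩)
    (fun y y0 y1 => by omega)
  have a := h1 y (-1)
  have b := (h2 (y + M * (-1))).not.2 (by omega)
  omega

lemma g0 : Good (fun k => 0 + 2 * k) := good_cls (by norm_num) (by norm_num)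
lemma g1 : Good (fun k => 1 + 2 * k) := good_cls (by norm_num) (by norm_num)

noncomputable def D (g : Perm ℤ) : Perm ℤ := io g0 g * io g1 g

lemma D_apply (g : Perm ℤ) {ε : ℤ} (h0 : 0 ≤ ε) (h1 : ε < 2) (k : ℤ) :
    D g (ε + 2 * k) = ε + 2 * g k := by
  have : ε = 0 ∨ ε = 1 := by omega
  rcases this with rfl | rfl
  · rw [D, Perm.mul_apply, io_out g1 g _ (fun l => by omega)]
    exact io_apply g0 g k
  · rw [D, Perm.mul_apply]
    have := io_apply g1 g k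
    rw [this, io_out g0 g _ (fun l => by omega)]

lemma exists_u {m : ℤ} (hm : 0 < m) : ∃ u : Perm ℤ, ∀ r ε k : ℤ, 0 ≤ r → r < m → 0 ≤ ε → ε < 2 →
    u (r + m * (ε + 2 * k)) = ε + 2 * (r + m * k) := by
  let f : ℤ → ℤ := fun n => n / m % 2 + 2 * (n % m + m * (n / m / 2))
  have hf : ∀ r ε k : ℤ, 0 ≤ r → r < m → 0 ≤ ε → ε < 2 →
      f (r + m * (ε + 2 * k)) = ε + 2 * (r + m * k) := by
    intro r ε k a b c d
    have e1 : (r + m * (ε + 2 * k)) / m = ε + 2 * k := by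
      rw [Int.add_mul_ediv_left _ _ hm.ne', Int.ediv_eq_zero_of_lt a b, zero_add]
    have e2 : (r + m * (ε + 2 * k)) % m = r := by
      rw [Int.add_mul_emod_self_left, Int.emod_eq_of_lt a b]
    have e3 : (ε + 2 * k) % 2 = ε := by omega
    have e4 : (ε + 2 * k) / 2 = k := by omega
    simp only [f, e1, e2, e3, e4]
  have hb : Function.Bijective f := by
    constructor
    · intro x y hxy
      obtain ⟨r, q, a, b, rfl⟩ := decomp x hm
      obtain ⟨ε, k, c, d, rfl⟩ := decomp q two_pos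
      obtain ⟨r', q', a', b', rfl⟩ := decomp y hm
      obtain ⟨ε', k', c', d', rfl⟩ := decomp q' two_pos
      rw [hf _ _ _ a b c d, hf _ _ _ a' b' c' d'] at hxy
      obtain ⟨rfl, h2⟩ := decomp_unique c d c' d' hxy
      obtain ⟨rfl, rfl⟩ := decomp_unique a b a' b' h2
      rfl
    · intro y
      obtain ⟨ε, q, c, d, rfl⟩ := decomp y two_pos
      obtain ⟨r, k, a, b, rfl⟩ := decomp q hm
      exact ⟨_, hf r ε k a b c d⟩
  exact ⟨Equiv.ofBijective f hb, hf⟩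

lemma lemD {g : Perm ℤ} (hg : PGood g) : D g * g⁻¹ ∈ H := by
  classical
  obtain ⟨m, hm, hm'⟩ := id hg
  obtain ⟨u, hu⟩ := exists_u hm
  have unn : ∀ y, 0 ≤ u y ↔ 0 ≤ y := by
    intro y
    obtain ⟨r, q, a, b, rfl⟩ := decomp y hm
    obtain ⟨ε, k, c, d, rfl⟩ := decomp q two_pos
    rw [hu _ _ _ a b c d, ((good_cls c d).comp (good_cls a b)).nonneg k,
      ((good_cls a b).comp (good_cls c d)).nonneg k]
  have uH : u ∈ H := by
    refine per_mem (M := 2 * m) (by positivity) u (fun y l => ?_) unn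
    obtain ⟨r, q, a, b, rfl⟩ := decomp y hm
    obtain ⟨ε, k, c, d, rfl⟩ := decomp q two_pos
    have e : r + m * (ε + 2 * k) + 2 * m * l = r + m * (ε + 2 * (k + l)) := by ring
    rw [e, hu _ _ _ a b c d, hu _ _ _ a b c d]; ring
  choose! ρ c hρ0 hρ1 hρ using hm'
  beta_reduce at hρ
  have ginv : ∀ x, g⁻¹ (g x) = x := fun x => by simp
  have cpos : ∀ j ∈ Finset.Ico 0 m, 0 < c j := by
    intro j hj
    obtain ⟨a, b⟩ := Finset.mem_Ico.1 hj
    exact lt_of_le_of_lt (hρ0 j a b) (hρ1 j a b)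
  have vH : D g * u * g⁻¹ ∈ H := by
    refine per_mem (M := 2 * ∏ j ∈ Finset.Ico 0 m, c j)
      (mul_pos two_pos (Finset.prod_pos cpos)) _ (fun y l => ?_) (fun y => ?_)
    · obtain ⟨x, rfl⟩ := g.surjective y
      obtain ⟨r, q, a, b, rfl⟩ := decomp x hm
      obtain ⟨ε, k, c0, d, rfl⟩ := decomp q two_pos
      obtain ⟨w, hw⟩ : c r ∣ ∏ j ∈ Finset.Ico 0 m, c j :=
        Finset.dvd_prod_of_mem _ (Finset.mem_Ico.2 ⟨a, b⟩)
      have e : g (r + m * (ε + 2 * k)) + (2 * ∏ j ∈ Finset.Ico 0 m, c j) * l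
          = g (r + m * (ε + 2 * (k + w * l))) := by
        rw [hρ r a b, hρ r a b, hw]; ring
      rw [e]
      simp only [Perm.mul_apply, ginv]
      rw [hu _ _ _ a b c0 d, hu _ _ _ a b c0 d, D_apply g c0 d, D_apply g c0 d, hρ r a b,
        hρ r a b, hw]
      ring
    · obtain ⟨x, rfl⟩ := g.surjective y
      obtain ⟨r, q, a, b, rfl⟩ := decomp x hm
      obtain ⟨ε, k, c0, d, rfl⟩ := decomp q two_pos
      simp only [Perm.mul_apply, ginv]
      rw [hu _ _ _ a b c0 d, D_apply g c0 d, (good_cls c0 d).nonneg, hg.nonneg, hg.nonneg,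
        (good_cls a b).nonneg, ((good_cls a b).comp (good_cls c0 d)).nonneg k]
  have := H.mul_mem vH (conj_mem hg (H.inv_mem uH))
  have e : D g * u * g⁻¹ * (g * u⁻¹ * g⁻¹) = D g * g⁻¹ := by group
  rwa [e] at this

theorem mem_of_pgood {g : Perm ℤ} (hg : PGood g) : g ∈ H := by
  have hD := lemD hg
  have h1 := io_mem g0 hD
  rw [D, map_mul, map_mul, map_inv, io_io, io_io] at h1
  have hab := lemA g1 g0 (fun k l => by omega) hg
  have h2 := lemA g1 (g0.comp g1) (fun k l => by omega) hg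
  have h3 := lemA (g0.comp g0) g1 (fun k l => by omega) hg
  have ha0 : io (g0.comp g0) g ∈ H := by
    have := H.mul_mem (H.mul_mem h1 hab) (H.inv_mem h2)
    convert this using 1
    group
  have hb : io g1 g ∈ H := by simpa using H.mul_mem h3 ha0
  have ha : io g0 g ∈ H := by simpa using H.mul_mem hab hb
  have : (D g)⁻¹ * (D g * g⁻¹) ∈ H := H.mul_mem (H.inv_mem (H.mul_mem ha hb)) hD
  simpa using this

lemma IsSw.pgood {a b : ℤ → ℤ} (ha : Good a) (hb : Good b) {σ : Perm ℤ} (h : IsSw a b σ) :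
    PGood σ := by
  obtain ⟨r, m, h0, h1, ha'⟩ := id ha
  obtain ⟨s, n, g0, g1, hb'⟩ := id hb
  have hm : 0 < m := by omega
  have hn : 0 < n := by omega
  refine ⟨m * n, by positivity, fun j j0 j1 => ?_⟩
  by_cases c1 : ∃ q, j = a q
  · obtain ⟨q, rfl⟩ := c1
    have q0 : 0 ≤ q := (ha.nonneg q).1 j0
    have q1 : q < n := by rw [ha'] at j1; nlinarith
    have e : ∀ k, a q + m * n * k = a (q + n * k) := fun k => by rw [ha', ha']; ring
    simpa only [e, (h.1 _).1] using hb.comp (good_cls q0 q1)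
  · by_cases c2 : ∃ q, j = b q
    · obtain ⟨q, rfl⟩ := c2
      have q0 : 0 ≤ q := (hb.nonneg q).1 j0
      have q1 : q < m := by rw [hb'] at j1; nlinarith
      have e : ∀ k, b q + m * n * k = b (q + m * k) := fun k => by rw [hb', hb']; ring
      simpa only [e, (h.1 _).2] using ha.comp (good_cls q0 q1)
    · have e : ∀ k, σ (j + m * n * k) = j + m * n * k := by
        intro k
        refine h.2 _ (fun l hl => c1 ⟨l - n * k, ?_⟩) (fun l hl => c2 ⟨l - m * k, ?_⟩)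
        · rw [ha'] at hl ⊢; linear_combination hl
        · rw [hb'] at hl ⊢; linear_combination hl
      simpa only [e] using good_cls j0 j1

theorem pgood_of_mem {g : Perm ℤ} (hg : g ∈ H) : PGood g := by
  refine Subgroup.closure_induction'' (p := fun (g : Perm ℤ) _ => PGood g) ?_ ?_ ?_ ?_ hg
  · intro σ hσ
    obtain ⟨a, b, ha, hb, _, hs⟩ := IsCT.sw hσ
    exact hs.pgood ha hb
  · intro σ hσ
    obtain ⟨a, b, ha, hb, _, hs⟩ := IsCT.sw hσ
    refine IsSw.pgood (σ := σ⁻¹) ha hb ⟨fun k => ⟨?_, ?_⟩, fun n n1 n2 => ?_⟩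
    · rw [Perm.inv_eq_iff_eq, (hs.1 k).2]
    · rw [Perm.inv_eq_iff_eq, (hs.1 k).1]
    · rw [Perm.inv_eq_iff_eq, hs.2 n n1 n2]
  · exact Good.pgood ⟨0, 1, le_rfl, one_pos, fun k => by simp⟩
  · intro x y _ _ hx hy
    exact hx.comp hy

theorem pgood_iff (g : Perm ℤ) : PGood g ↔
    (∃ m : ℤ, 0 < m ∧ ∀ r : ℤ, ∃ a b : ℚ, ∀ n : ℤ,
      Int.ModEq m n r → ((g n : ℤ) : ℚ) = a * (n : ℚ) + b) ∧ ∀ n : ℤ, 0 ≤ g n ↔ 0 ≤ n := by
  constructor
  · intro hg
    refine ⟨?_, hg.nonneg⟩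
    obtain ⟨m, hm, h⟩ := hg
    refine ⟨m, hm, fun r => ?_⟩
    obtain ⟨j, q, j0, j1, rfl⟩ := decomp r hm
    obtain ⟨s, c, _, _, hs⟩ := h j j0 j1
    beta_reduce at hs
    refine ⟨c / m, s - c * j / m, fun n hn => ?_⟩
    obtain ⟨k, rfl⟩ := (modEq_iff _ _ _).1 hn
    have e : j + m * q + m * k = j + m * (q + k) := by ring
    have hm' : (m : ℚ) ≠ 0 := by exact_mod_cast hm.ne'
    rw [e, hs]
    push_cast
    field_simp
    ring
  · rintro ⟨⟨m, hm, h⟩, hn⟩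
    refine ⟨m, hm, fun j j0 j1 => ?_⟩
    obtain ⟨a, b, hab⟩ := h j
    have e : ∀ k, g (j + m * k) = g j + (g (j + m) - g j) * k := by
      intro k
      have e1 := hab (j + m * k) ((modEq_iff _ _ _).2 ⟨k, rfl⟩)
      have e2 := hab j ((modEq_iff _ _ _).2 ⟨0, by ring⟩)
      have e3 := hab (j + m) ((modEq_iff _ _ _).2 ⟨1, by ring⟩)
      have : ((g (j + m * k) : ℤ) : ℚ) = ((g j + (g (j + m) - g j) * k : ℤ) : ℚ) := by
        push_cast at e1 e3 ⊢
        rw [e1, e2, e3]; ring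
      exact_mod_cast this
    refine ⟨g j, g (j + m) - g j, (hn j).2 j0, ?_, e⟩
    have a1 := e (-1)
    have a2 := (hn (j + m * (-1))).not.2 (by omega)
    omega

end Pool.Agent.H.MP_2b3d4e_al
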